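import Pool.Agent.H95.ConeEx

set_option autoImplicit false
open Pool.Agent.H95.ConeDefs

theorem Pool.Agent.Results.MP_c65f17_an.MinNotSup.result :
    ∃ (X : Type) (_ : NormedAddCommGroup X) (_ : NormedSpace ℝ X) (_ : CompleteSpace X)
      (K : Set X) (x : ℕ → X), IsCone K ∧ IsNormal K ∧ Increasing K x ∧
      (∃ u, IsMinUB K x u) ∧ ¬ ∃ s, IsSup K x s :=
  ⟨Pool.Agent.H95.ConeEx.E, inferInstance, inferInstance, inferInstance, Pool.Agent.H95.ConeEx.K,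
    Pool.Agent.H95.ConeEx.x, Pool.Agent.H95.ConeEx.cone, Pool.Agent.H95.ConeEx.normal,
    Pool.Agent.H95.ConeEx.x_incr, ⟨_, Pool.Agent.H95.ConeEx.minub⟩, Pool.Agent.H95.ConeEx.nosup⟩
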